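import Pool.Agent.Helper59.MB.Goals1

set_option autoImplicit false

open MeasureTheory Filter Topology Finset

namespace Pool.Agent.Helper37.MB

open Pool.Agent.Helper59.MB

noncomputable section

lemma s0_mono : StrictMono s0 := by
  intro a b h
  unfold s0
  exact Nat.pow_lt_pow_left (by omega) (by norm_num)

lemma abs_mu_le (a : ℤ) : |mu a| ≤ 1 := by
  unfold mu
  have h := ArithmeticFunction.abs_moebius_le_one (n := a.toNat)
  rw [← Int.cast_abs]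
  exact_mod_cast h

lemma P_mono {s : ℕ → ℕ} (hs : StrictMono s) {i j : ℕ} (h : i ≤ j) : P s i ≤ P s j :=
  Nat.pow_le_pow_right (by norm_num) (hs.monotone h)

lemma lt_P {s : ℕ → ℕ} (hs : StrictMono s) (k : ℕ) : k < P s k :=
  lt_of_le_of_lt hs.le_apply Nat.lt_two_pow_self

lemma exists_level {s : ℕ → ℕ} (hs : StrictMono s) (j N : ℕ) (hN : P s (j + 1) ≤ N) :
    ∃ k, j ≤ k ∧ P s (k + 1) ≤ N ∧ N < P s (k + 2) := by
  classical
  have hex : ∃ k, j ≤ k ∧ N < P s (k + 2) := by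
    refine ⟨max j N, le_max_left _ _, ?_⟩
    have h1 := lt_P hs (max j N + 2)
    have h2 := le_max_right j N
    omega
  obtain ⟨h1, h2⟩ := Nat.find_spec hex
  refine ⟨Nat.find hex, h1, ?_, h2⟩
  by_contra hc
  push Not at hc
  rcases Nat.eq_or_lt_of_le h1 with h | h
  · rw [← h] at hc
    omega
  · have h3 : j ≤ Nat.find hex - 1 ∧ N < P s (Nat.find hex - 1 + 2) := by
      refine ⟨by omega, ?_⟩
      rw [show Nat.find hex - 1 + 2 = Nat.find hex + 1 by omega]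
      exact hc
    have h4 := Nat.find_min' hex h3
    omega

lemma sum_phase (hPHS : S_PHS) (hNT : S_NT) (b : ℕ) (f : ℕ → ℝ) (hf : ∀ r, |f r| ≤ 1) (ε : ℝ)
    (hε : 0 < ε) :
    ∃ N₀ : ℕ, ∀ N ≥ N₀, ∀ t : ℤ_[2],
      |∑ n ∈ Icc 1 N, f (ph b (t + ((n : ℕ) : ℤ_[2]))) * mu n| ≤ ε * N := by
  obtain ⟨p1, p2, -⟩ := hPHS
  have hp : (0 : ℝ) < 2 ^ b := by positivity
  obtain ⟨N₀, h0⟩ := hNT b (ε / 2 ^ b) (div_pos hε hp)
  refine ⟨N₀, fun N hN t => ?_⟩
  have hph : ∀ n : ℕ, ph b (t + ((n : ℕ) : ℤ_[2])) = (ph b t + n % 2 ^ b) % 2 ^ b := by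
    intro n
    have h := p2 b t (n : ℤ)
    rw [Int.cast_natCast] at h
    have h' : ((ph b (t + ((n : ℕ) : ℤ_[2])) : ℕ) : ℤ) = (((ph b t + n) % 2 ^ b : ℕ) : ℤ) := by
      rw [h]; push_cast; rfl
    have h'' := Int.ofNat.inj h'
    rw [h'', Nat.add_mod_mod]
  have e : ∑ n ∈ Icc 1 N, f (ph b (t + ((n : ℕ) : ℤ_[2]))) * mu n =
      ∑ r ∈ range (2 ^ b), f ((ph b t + r) % 2 ^ b) *
        ∑ n ∈ (Icc 1 N).filter (fun n => n % 2 ^ b = r), mu n := by
    rw [← Finset.sum_fiberwise_of_maps_to (s := Icc 1 N) (t := range (2 ^ b))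
      (g := fun n => n % 2 ^ b)]
    · refine Finset.sum_congr rfl fun r _ => ?_
      rw [Finset.mul_sum]
      refine Finset.sum_congr rfl fun n hn => ?_
      rw [hph n, (Finset.mem_filter.1 hn).2]
    · intro n _
      exact Finset.mem_range.2 (Nat.mod_lt _ (by positivity))
  rw [e]
  calc _ ≤ ∑ r ∈ range (2 ^ b), |f ((ph b t + r) % 2 ^ b) *
        ∑ n ∈ (Icc 1 N).filter (fun n => n % 2 ^ b = r), mu n| := Finset.abs_sum_le_sum_abs _ _
    _ ≤ ∑ _r ∈ range (2 ^ b), ε / 2 ^ b * N := by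
        refine Finset.sum_le_sum fun r _ => ?_
        rw [abs_mul]
        calc _ ≤ 1 * (ε / 2 ^ b * N) := by
              gcongr
              · exact hf _
              · exact h0 N hN r
          _ = _ := one_mul _
    _ = ε * N := by
        rw [Finset.sum_const, Finset.card_range, nsmul_eq_mul]
        push_cast
        field_simp

lemma three {a b c α β γ d : ℝ} (h1 : |a| ≤ α) (h2 : |b| ≤ β) (h3 : |c| ≤ γ)
    (h4 : α + (β + γ) ≤ d) : |a + (b + c)| ≤ d :=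
  le_trans (abs_add_le _ _) (le_trans (add_le_add h1 (le_trans (abs_add_le _ _)
    (add_le_add h2 h3))) h4)

lemma first_le {N p k ε : ℝ} (hp : p ≤ N) (hN : 0 ≤ N) (hk : 0 < k) (hε : 0 < ε)
    (h : 12 / ε < k) : (N + 2 * p) / k ≤ ε / 4 * N := by
  rw [div_le_iff₀ hk]
  have h4 : 12 < k * ε := by rwa [div_lt_iff₀ hε] at h
  nlinarith

lemma last_le {N q ε : ℝ} (hq : q ≤ ε / 4) (hN : 0 ≤ N) (hε : 0 < ε) :
    ε / 4 * N + (q * N + ε / 4 * N) ≤ ε * N := by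
  have h1 : q * N ≤ ε / 4 * N := mul_le_mul_of_nonneg_right hq hN
  have h0 : 0 ≤ ε / 4 * N := by positivity
  linarith

theorem t_MDT (hSUM : S_SUM) (hMNS : S_MNS) (hPHS : S_PHS) (hPAR : S_PAR) (hNT : S_NT) :
    S_MDT := by
  intro m _ l ε hε
  have hs := s0_mono
  obtain ⟨j1, hj1⟩ := exists_pow_lt_of_lt_one (show (0 : ℝ) < ε / 4 by positivity)
    (show (1 / 2 : ℝ) < 1 by norm_num)
  obtain ⟨j2, hj2⟩ := exists_nat_gt (12 / ε)
  set j := max l (max j1 j2) with hj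
  have hlj : l ≤ j := le_max_left _ _
  have hj1j : j1 ≤ j := le_trans (le_max_left _ _) (le_max_right _ _)
  have hj2j : j2 ≤ j := le_trans (le_max_right _ _) (le_max_right _ _)
  have hEj : ∀ ρ, |E s0 (VM s0) m j l ρ| ≤ 1 := by
    intro ρ
    obtain ⟨h1, h2⟩ := (hMNS s0 (VM s0) m j (hPAR m j)).1 j l ρ
    rw [abs_of_nonneg h1]; exact h2
  obtain ⟨N1, hN1⟩ := sum_phase hPHS hNT (s0 j) (fun ρ => E s0 (VM s0) m j l ρ) hEj (ε / 4)
    (by positivity)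
  refine ⟨max N1 (P s0 (j + 1)), fun N hN x hx => ?_⟩
  obtain ⟨k, hjk, hk1, hk2⟩ := exists_level hs j N (le_trans (le_max_right _ _) hN)
  have hNN1 : N1 ≤ N := le_trans (le_max_left _ _) hN
  have hS := hSUM s0 (VM s0) m hs x hx l k N mu (le_trans hlj hjk) (by
    intro a ha1 ha2
    refine Or.inr ⟨a, ?_, rfl⟩
    have h1 := P_mono hs (show k + 1 ≤ k + 2 by omega)
    rw [abs_le]
    constructor <;> omega)
  obtain ⟨p1, p2, p3, -⟩ := hPHS
  have hM := (hMNS s0 (VM s0) m k (hPAR m k)).2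
  have hsecond : |∑ n ∈ Icc 1 N, (E s0 (VM s0) m k l (ph (s0 k) (x.2 + ((n : ℕ) : ℤ_[2]))) -
      E s0 (VM s0) m j l (ph (s0 j) (x.2 + ((n : ℕ) : ℤ_[2])))) * mu n| ≤
      (1 / 2) ^ (j + 1) * N := by
    calc _ ≤ ∑ n ∈ Icc 1 N, |(E s0 (VM s0) m k l (ph (s0 k) (x.2 + ((n : ℕ) : ℤ_[2]))) -
      E s0 (VM s0) m j l (ph (s0 j) (x.2 + ((n : ℕ) : ℤ_[2])))) * mu n| :=
          Finset.abs_sum_le_sum_abs _ _
      _ ≤ ∑ _n ∈ Icc 1 N, (1 / 2 : ℝ) ^ (j + 1) := by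
          refine Finset.sum_le_sum fun n _ => ?_
          rw [abs_mul, ← p3 (s0 k) (s0 j) _ (hs.monotone hjk)]
          calc _ ≤ (1 / 2 : ℝ) ^ (j + 1) * 1 := by
                gcongr
                · exact hM k j l _ hlj hjk le_rfl (p1 _ _)
                · exact abs_mu_le _
            _ = _ := mul_one _
      _ = _ := by
          rw [Finset.sum_const, Nat.card_Icc, nsmul_eq_mul]
          simp [mul_comm]
  have hthird := hN1 N hNN1 x.2
  have e : ∑ n ∈ Icc 1 N, Th s0 l ((⇑TB)^[n] x) * mu n =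
      (∑ n ∈ Icc 1 N, (Th s0 l ((⇑TB)^[n] x) -
        E s0 (VM s0) m k l (ph (s0 k) (x.2 + ((n : ℕ) : ℤ_[2])))) * mu n) +
      ((∑ n ∈ Icc 1 N, (E s0 (VM s0) m k l (ph (s0 k) (x.2 + ((n : ℕ) : ℤ_[2]))) -
        E s0 (VM s0) m j l (ph (s0 j) (x.2 + ((n : ℕ) : ℤ_[2])))) * mu n) +
      ∑ n ∈ Icc 1 N, E s0 (VM s0) m j l (ph (s0 j) (x.2 + ((n : ℕ) : ℤ_[2]))) * mu n) := by
    rw [← Finset.sum_add_distrib, ← Finset.sum_add_distrib]
    refine Finset.sum_congr rfl fun n _ => ?_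
    ring
  rw [e]
  have hN0 : (0 : ℝ) ≤ N := Nat.cast_nonneg N
  have hfirst : ((N : ℝ) + 2 * P s0 (k + 1)) / (k + 1) ≤ ε / 4 * N := by
    refine first_le (by exact_mod_cast hk1) hN0 (by positivity) hε (lt_of_lt_of_le hj2 ?_)
    have h2 : (j2 : ℝ) ≤ k := by exact_mod_cast le_trans hj2j hjk
    exact le_trans h2 (le_add_of_nonneg_right zero_le_one)
  have hpow : (1 / 2 : ℝ) ^ (j + 1) ≤ ε / 4 := by
    refine le_trans (pow_le_pow_of_le_one (by norm_num) (by norm_num)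
      (show j1 ≤ j + 1 by omega)) hj1.le
  exact three (le_trans hS hfirst) hsecond hthird (last_le hpow hN0 hε)

end

end Pool.Agent.Helper37.MB
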